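import Pool.Agent.RS.StmtsT

/-!
# RS, row HOM: values of weighted homogeneous polynomials
-/

set_option autoImplicit false

namespace Pool.Agent.RS.H32

open MvPolynomial

theorem gr_add_mem {k B : Type} [Field k] [CommRing B] [Algebra k B] (gr : ℕ → Submodule k B)
    {Y : Type} (w : Y → ℕ) (g : Y → B) (hG : Graded gr) (hg : ∀ y, g y ∈ gr (w y))
    (m : Y →₀ ℕ) (s : Finset Y) :
    ∏ y ∈ s, g y ^ m y ∈ gr (∑ y ∈ s, m y * w y) := by
  classical
  have h0 : (1 : B) ∈ gr 0 := (hG.1 1).2 ⟨1, by rw [map_one]⟩
  have hpow : ∀ (y : Y) (e : ℕ), g y ^ e ∈ gr (e * w y) := by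
    intro y e
    induction e with
    | zero => simpa using h0
    | succ e ih =>
      have h1 := hG.2.1 _ _ _ ih _ (hg y)
      rw [pow_succ]
      have h2 : (e + 1) * w y = e * w y + w y := by ring
      rw [h2]
      exact h1
  induction s using Finset.induction_on with
  | empty => simpa using h0
  | insert a s ha ih =>
    rw [Finset.prod_insert ha, Finset.sum_insert ha]
    exact hG.2.1 _ _ _ (hpow a (m a)) _ ih

theorem hom_one {k B : Type} [Field k] [CommRing B] [Algebra k B] (gr : ℕ → Submodule k B)
    {Y : Type} (w : Y → ℕ) (g : Y → B) (hG : Graded gr) (hg : ∀ y, g y ∈ gr (w y))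
    (n : ℕ) (P : MvPolynomial Y k) (hP : IsWeightedHomogeneous w P n) : aeval g P ∈ gr n := by
  classical
  rw [P.as_sum, map_sum]
  refine Submodule.sum_mem _ fun m hm => ?_
  rw [aeval_monomial, ← Algebra.smul_def]
  refine Submodule.smul_mem _ _ ?_
  have hw : Finsupp.weight w m = n := hP (mem_support_iff.1 hm)
  rw [Finsupp.weight_apply] at hw
  have h1 := gr_add_mem gr w g hG hg m m.support
  have h2 : ∑ y ∈ m.support, m y * w y = n := by
    rw [← hw, Finsupp.sum]
    exact Finset.sum_congr rfl fun y _ => by rw [smul_eq_mul]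
  rw [h2] at h1
  exact h1

theorem exists_sum_comp {k Y : Type} [Field k] (w : Y → ℕ) (P : MvPolynomial Y k) (n : ℕ) :
    ∃ N : ℕ, n < N ∧ P = ∑ j ∈ Finset.range N, weightedHomogeneousComponent w j P := by
  refine ⟨max (n + 1) (weightedTotalDegree w P + 1), by omega, ?_⟩
  have h1 := sum_weightedHomogeneousComponent w P
  rw [finsum_eq_sum_of_support_subset] at h1
  · exact h1.symm
  · intro j hj
    rw [Function.mem_support] at hj
    rw [Finset.coe_range, Set.mem_Iio]
    by_contra hc
    apply hj
    apply weightedHomogeneousComponent_eq_zero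
    omega

theorem hom : HomStmt := by
  intro k B _ _ _ gr Y w g hG hM
  have hg : ∀ y, g y ∈ gr (w y) := fun y => (hM.1 y).2
  have h1 := hom_one gr w g hG hg
  refine ⟨h1, ?_, ?_⟩
  · intro n f hf
    obtain ⟨P, hP⟩ := hM.2.1 f
    obtain ⟨N, hnN, hN⟩ := exists_sum_comp w P n
    refine ⟨weightedHomogeneousComponent w n P,
      weightedHomogeneousComponent_isWeightedHomogeneous n P, ?_⟩
    have hsum : f = ∑ j ∈ Finset.range N, aeval g (weightedHomogeneousComponent w j P) := by
      rw [← map_sum, ← hN]
      exact hP.symm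
    have h2 := hG.2.2.2 N
      (fun j => aeval g (weightedHomogeneousComponent w j P) - if j = n then f else 0) (by
        intro j
        refine Submodule.sub_mem _
          (h1 j _ (weightedHomogeneousComponent_isWeightedHomogeneous j P)) ?_
        split_ifs with h
        · rw [h]
          exact hf
        · exact Submodule.zero_mem _) (by
        rw [Finset.sum_sub_distrib, ← hsum, Finset.sum_ite_eq' (Finset.range N) n (fun _ => f),
          if_pos (Finset.mem_range.2 hnN), sub_self]) n hnN
    simp only [if_true] at h2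
    exact sub_eq_zero.1 h2
  · intro P hP n
    obtain ⟨N, hnN, hN⟩ := exists_sum_comp w P n
    refine hG.2.2.2 N (fun j => aeval g (weightedHomogeneousComponent w j P)) (fun j =>
      h1 j _ (weightedHomogeneousComponent_isWeightedHomogeneous j P)) ?_ n hnN
    rw [← map_sum, ← hN]
    exact hP

end Pool.Agent.RS.H32
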