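import Pool.Agent.RS.StmtsT

/-!
# RS, row PFB: partial fractions in `P = P'[x]`
-/

set_option autoImplicit false

namespace Pool.Agent.RS.H32

theorem pfb : PfrStmt → PfbStmt := by
  intro hPFR B _ _ P P' x hle hx hgen hinj q hq hq0 b hb hb0
  let ev : Polynomial P' →+* B := Polynomial.eval₂RingHom P'.subtype x
  have hev : ∀ p : Polynomial P', ev p = (p.map P'.subtype).eval x := by
    intro p
    rw [Polynomial.eval_map]
    rfl
  have hev_inj : Function.Injective ev := by
    rw [injective_iff_map_eq_zero]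
    intro p hp
    rw [hev] at hp
    have h1 := hinj (p.map P'.subtype) (fun n => by
      rw [Polynomial.coeff_map]
      exact (p.coeff n).2) hp
    exact (Polynomial.map_eq_zero_iff (f := P'.subtype) Subtype.val_injective).1 h1
  have hev_mem : ∀ p : Polynomial P', ev p ∈ P := by
    intro p
    rw [hev, Polynomial.eval_eq_sum_range]
    refine Subring.sum_mem _ fun i _ => ?_
    refine Subring.mul_mem _ ?_ (Subring.pow_mem _ hx _)
    rw [Polynomial.coeff_map]
    exact hle (p.coeff i).2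
  have hev_sur : ∀ f ∈ P, ∃ p : Polynomial P', ev p = f := by
    intro f hf
    obtain ⟨p, hp, hpf⟩ := hgen f hf
    have h1 : p ∈ Polynomial.lifts P'.subtype := by
      rw [Polynomial.lifts_iff_coeff_lifts]
      intro n
      exact ⟨⟨p.coeff n, hp n⟩, rfl⟩
    obtain ⟨p₀, hp₀⟩ := (Polynomial.mem_lifts _).1 h1
    exact ⟨p₀, by rw [hev, hp₀, hpf]⟩
  obtain ⟨Q₀, hQ₀⟩ := hev_sur q hq
  obtain ⟨b₀, hb₀⟩ := hev_sur b hb
  have hQn : Q₀ ≠ 0 := by
    rintro rfl
    rw [map_zero] at hQ₀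
    exact hq0 hQ₀.symm
  have hbn : b₀ ≠ 0 := by
    rintro rfl
    rw [map_zero] at hb₀
    exact hb0 hb₀.symm
  obtain ⟨M, u, c, c', α, β, f, ρ, hu, hf, hρ, h1, h2⟩ := hPFR P' Q₀ b₀ hQn hbn
  have hevC : ∀ a : P', ev (Polynomial.C a) = (a : B) := by
    intro a
    change Polynomial.eval₂ P'.subtype x (Polynomial.C a) = _
    rw [Polynomial.eval₂_C]
    rfl
  have h1' : ev α * q + ev β * ev u = (ρ : B) := by
    rw [← hQ₀, ← map_mul, ← map_mul, ← map_add, h1, hevC]
  have h2' : ev u * (f : B) * q ^ M = b * (ev c * ((f : B) * q ^ M) + ev c' * ev u) := by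
    rw [← hQ₀, ← hb₀, ← hevC f]
    simp only [← map_mul, ← map_pow, ← map_add]
    rw [h2]
  refine ⟨M, ev u, ev c, ev c', (f : B), ⟨hev_mem u, ev α, hev_mem α, ev β, hev_mem β, ?_, ?_⟩,
    ?_, f.2, ?_, hev_mem c, hev_mem c', h2'⟩
  · rw [h1']
    exact ρ.2
  · rw [h1']
    intro h
    exact hρ (Subtype.ext h)
  · intro h
    apply hu
    apply hev_inj
    rw [h, map_zero]
  · intro h
    exact hf (Subtype.ext h)

end Pool.Agent.RS.H32
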