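import Pool.Agent.RS.StmtsF

/-!
# RS, row PSD: pseudo-division with coefficients in a subring
-/

set_option autoImplicit false

namespace Pool.Agent.RS.H32

theorem psd_aux {R : Type} [CommRing R] (S : Subring R) (G : Polynomial R)
    (hG0 : 0 < G.natDegree) (hG : ∀ n, G.coeff n ∈ S) : ∀ (d : ℕ) (f : Polynomial R),
    f.natDegree ≤ d → (∀ n, f.coeff n ∈ S) →
    ∃ (M : ℕ) (h r : Polynomial R), Polynomial.C (G.leadingCoeff ^ M) * f = G * h + r ∧
      r.natDegree < G.natDegree ∧ (∀ n, h.coeff n ∈ S) ∧ ∀ n, r.coeff n ∈ S := by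
  intro d
  induction d with
  | zero =>
    intro f hd hf
    refine ⟨0, 0, f, by simp, by omega, ?_, hf⟩
    intro n
    rw [Polynomial.coeff_zero]
    exact S.zero_mem
  | succ d ih =>
    intro f hd hf
    by_cases hlt : f.natDegree < G.natDegree
    · refine ⟨0, 0, f, by simp, hlt, ?_, hf⟩
      intro n
      rw [Polynomial.coeff_zero]
      exact S.zero_mem
    have hle : G.natDegree ≤ f.natDegree := not_lt.1 hlt
    set k := f.natDegree - G.natDegree with hk
    have hkf : G.natDegree + k = f.natDegree := by omega
    set f' : Polynomial R := Polynomial.C G.leadingCoeff * f -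
      Polynomial.C f.leadingCoeff * Polynomial.X ^ k * G with hf'
    have hc : ∀ n, f'.coeff n ∈ S := by
      intro n
      rw [hf', Polynomial.coeff_sub, Polynomial.coeff_C_mul, mul_assoc, Polynomial.coeff_C_mul,
        Polynomial.coeff_X_pow_mul']
      refine S.sub_mem (S.mul_mem (hG _) (hf _)) (S.mul_mem (hf _) ?_)
      split_ifs
      · exact hG _
      · exact S.zero_mem
    have h1 : f'.natDegree ≤ f.natDegree := by
      rw [hf']
      refine (Polynomial.natDegree_sub_le _ _).trans (max_le ?_ ?_)
      · exact Polynomial.natDegree_C_mul_le _ _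
      · refine Polynomial.natDegree_mul_le.trans ?_
        have h2 : (Polynomial.C f.leadingCoeff * Polynomial.X ^ k : Polynomial R).natDegree ≤ k :=
          Polynomial.natDegree_C_mul_X_pow_le _ _
        omega
    have h2 : f'.coeff f.natDegree = 0 := by
      rw [hf', Polynomial.coeff_sub, Polynomial.coeff_C_mul, mul_assoc, Polynomial.coeff_C_mul,
        ← hkf, Polynomial.coeff_X_pow_mul]
      have h3 : f.coeff (G.natDegree + k) = f.leadingCoeff := by
        rw [hkf]
        rfl
      have h4 : G.coeff G.natDegree = G.leadingCoeff := rfl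
      rw [h3, h4]
      ring
    have h3 : f'.natDegree ≤ d := by
      by_contra hcon
      have h4 : f'.natDegree = f.natDegree := by omega
      have h5 : f'.leadingCoeff = 0 := by
        rw [Polynomial.leadingCoeff, h4]
        exact h2
      rw [Polynomial.leadingCoeff_eq_zero] at h5
      rw [h5, Polynomial.natDegree_zero] at hcon
      omega
    obtain ⟨M, h, r, e1, e2, e3, e4⟩ := ih f' h3 hc
    refine ⟨M + 1, h + Polynomial.C (G.leadingCoeff ^ M * f.leadingCoeff) * Polynomial.X ^ k, r,
      ?_, e2, ?_, e4⟩
    · have e5 : Polynomial.C (G.leadingCoeff ^ (M + 1)) * f =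
          Polynomial.C (G.leadingCoeff ^ M) * f' +
          Polynomial.C (G.leadingCoeff ^ M * f.leadingCoeff) * Polynomial.X ^ k * G := by
        rw [hf', pow_succ, Polynomial.C_mul, Polynomial.C_mul]
        ring
      rw [e5, e1]
      ring
    · intro n
      rw [Polynomial.coeff_add, Polynomial.coeff_C_mul, Polynomial.coeff_X_pow]
      refine S.add_mem (e3 n) (S.mul_mem (S.mul_mem (S.pow_mem (hG _) _) (hf _)) ?_)
      split_ifs
      · exact S.one_mem
      · exact S.zero_mem

theorem psd : PsdStmt := by
  intro R _ S f G hG0 hf hG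
  exact psd_aux S G hG0 hG f.natDegree f le_rfl hf

end Pool.Agent.RS.H32
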